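import Pool.Agent.Lib.MP_b58d28_al.Adj.A7

/-!
Adjoint groups of radical rings with the normalizer condition are hyperabelian.
-/

set_option autoImplicit false

namespace Pool.Agent.Results.MP_b58d28_al.AdjointGroups

open Pool.Agent.MP_b58d28_al.Adj

/-- Let `R` be a ring (associative, not necessarily with `1`) which is a group `G` under
`a ∘ b = a + b + a b`, that is, a Jacobson radical ring, with adjoint group `G`: the bijection `φ`
turns the group operation into `∘`. For instance `R` can be any nil ring. Suppose that `G` satisfies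
the normalizer condition.

(1) Let `I` be an ideal of `R` with semiprime quotient. Then `R / I` is commutative, and it has no
nonzero nilpotent elements. So `R` modulo its prime radical is commutative, and `R` equals its prime
radical if `R` is a nil ring.

(2) `G` is hyperabelian: every proper normal subgroup `N` lies strictly inside a normal subgroup `A`
such that `A / N` is abelian. -/
theorem result {G R : Type*} [Group G] [NonUnitalRing R] (φ : G ≃ R)
    (hφ : ∀ g h, φ (g * h) = φ g + φ h + φ g * φ h) (hN : NormalizerCondition G) :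
    (∀ I : TwoSidedIdeal R, (∀ a, (∀ r, a * r * a ∈ I) → a ∈ I) →
      (∀ a b, a * b - b * a ∈ I) ∧ ∀ a, a * a ∈ I → a ∈ I) ∧
    ∀ N : Subgroup G, N.Normal → N ≠ ⊤ →
      ∃ A : Subgroup G, A.Normal ∧ N < A ∧ ∀ x ∈ A, ∀ y ∈ A, x * y * x⁻¹ * y⁻¹ ∈ N :=
  ⟨fun I hI => ⟨comm_mod_semiprime φ hφ hN I hI, reduced_of_semiprime φ hφ hN I hI⟩,
    fun N hNn hNt => hyperabelian φ hφ hN N hNn hNt⟩

end Pool.Agent.Results.MP_b58d28_al.AdjointGroups
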